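import Mathlib
import Pool.Agent.TH461.SST.Main
import Pool.Agent.TH461.SST.PowC

set_option autoImplicit false

/-- Let `p ≠ q` be primes and `s < 2`. The `k`-th base-`q` digit (from the right, `k = 0, 1, …`) of
an integer `m ≥ 0` is `m / q^k % q`. There are `c > 0` and `T₀` such that, for every `T ≥ T₀` and
every natural number `a` not divisible by `q`, the number of pairs `(n, k)`, `0 ≤ n, k < T`, for
which the `k`-th and the `(k+1)`-st digits of `a p^n` are different is at least `c T^s`. -/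
theorem Pool.Agent.Results.MP_b08cb4_nt.DigitChangesExponentTwo.result :
    ∀ p q : ℕ, p.Prime → q.Prime → p ≠ q → ∀ s : ℝ, s < 2 →
      ∃ c : ℝ, 0 < c ∧ ∃ T₀ : ℕ, ∀ T : ℕ, T₀ ≤ T → ∀ a : ℕ, ¬ q ∣ a →
        c * (T : ℝ) ^ s ≤
          ((∑ n ∈ Finset.range T, ((Finset.range T).filter (fun k : ℕ =>
            a * p ^ n / q ^ k % q ≠ a * p ^ n / q ^ (k + 1) % q)).card : ℕ) : ℝ) := by
  intro p q hp hq hne s hs
  have hco : Nat.Coprime q p := (Nat.coprime_primes hq hp).mpr hne.symm
  obtain ⟨c, hc, T0, h⟩ := Pool.Agent.TH461.SST.PowC.pow_changes_unif hq.two_le hp.two_le hco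
    (s := max s (3 / 2)) (lt_of_lt_of_le (by norm_num) (le_max_right _ _))
    (Pool.Agent.TH461.SST.Main.growth hq.two_le hp.two_le hco (max_lt hs (by norm_num)))
  refine ⟨c, hc, max T0 1, fun T hT a ha => ?_⟩
  refine le_trans ?_ (h T (le_trans (le_max_left _ _) hT) a ha)
  have hT1 : (1 : ℝ) ≤ T := by exact_mod_cast le_trans (le_max_right _ _) hT
  exact mul_le_mul_of_nonneg_left (Real.rpow_le_rpow_of_exponent_le hT1 (le_max_left _ _)) hc.le
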