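import Mathlib
import Pool.Agent.TH932.S2.Pw

/-!
# Long words in the digits of `p ^ n`

Let `p, q ≥ 2` be coprime (for example different primes) and `ε > 0`. For large `n` every linear
relation with coefficients of size at most `e ^ (δ n)` between words of length at least `ε n` in the
base `q` expansions of `p ^ 0, …, p ^ n` comes from an exact linear relation between the numbers
`p ^ N / q ^ i`. In particular these words are pairwise different, and the expansion of `p ^ n` has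
the largest possible number of different words of each length `≥ ε n`.
-/

set_option autoImplicit false

namespace Pool.Agent.Results.MP_b08cb4_nt.LongWindows

open Finset

/-- the number of digits of `m` in base `q` -/
def len (q m : ℕ) : ℕ := (Nat.digits q m).length

/-- the word of the `l` digits of `m` in base `q` at the places `i, i + 1, …, i + l - 1` (counted
from the right, the last digit has the place `0`) -/
def word (q m i l : ℕ) : Fin l → ℕ := fun t => m / q ^ (i + t) % q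

lemma mod_eq {q : ℕ} {m m' : ℕ} (l : ℕ) (h : ∀ t < l, m / q ^ t % q = m' / q ^ t % q) :
    m % q ^ l = m' % q ^ l := by
  induction l with
  | zero => simp [Nat.mod_one]
  | succ l ih =>
    rw [Nat.mod_pow_succ, Nat.mod_pow_succ, ih fun t ht => h t (by omega), h l (by omega)]

lemma len_bound {p q : ℕ} (hp : 2 ≤ p) (hq : 2 ≤ q) {N n : ℕ} (hN : N ≤ n) (hn : 1 ≤ n) :
    (len q (p ^ N) : ℝ) ≤ (1 + Real.log p / Real.log q) * n := by
  have hlp : 0 < Real.log p := Real.log_pos (by exact_mod_cast hp)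
  have hlq : 0 < Real.log q := Real.log_pos (by exact_mod_cast hq)
  have h1 : q ^ len q (p ^ N) ≤ q * p ^ N :=
    Nat.base_pow_length_digits_le q (p ^ N) (by omega) (pow_ne_zero _ (by omega))
  have h2 : (q : ℝ) ^ len q (p ^ N) ≤ q * (p : ℝ) ^ N := by exact_mod_cast h1
  have h3 := Real.log_le_log (by positivity) h2
  rw [Real.log_pow, Real.log_mul (by positivity) (by positivity), Real.log_pow] at h3
  have h4 : (N : ℝ) ≤ n := by exact_mod_cast hN
  have h5 : (1 : ℝ) ≤ n := by exact_mod_cast hn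
  have h6 : (len q (p ^ N) : ℝ) * Real.log q ≤ ((1 + Real.log p / Real.log q) * n) * Real.log q := by
    have e1 : ((1 + Real.log p / Real.log q) * n) * Real.log q = n * Real.log q + n * Real.log p := by
      field_simp
    rw [e1]
    have := mul_le_mul_of_nonneg_right h4 hlp.le
    have := mul_le_mul_of_nonneg_right h5 hlq.le
    linarith
  exact le_of_mul_le_mul_right h6 hlq

/-- linear relations -/
theorem relations (p q : ℕ) (hp : 2 ≤ p) (hq : 2 ≤ q) (hpq : p.Coprime q) (ε : ℝ) (hε : 0 < ε)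
    (k : ℕ) : ∃ δ : ℝ, 0 < δ ∧ ∃ n₀ : ℕ, ∀ n l : ℕ, n₀ ≤ n → ε * n ≤ l →
      ∀ (N i : Fin k → ℕ) (c : Fin k → ℤ) (d : ℤ),
        (∀ j, N j ≤ n ∧ i j + l ≤ len q (p ^ N j) ∧ |(c j : ℝ)| ≤ Real.exp (δ * n)) →
        |(d : ℝ)| ≤ Real.exp (δ * n) →
        (q : ℤ) ^ l ∣ ∑ j, c j * ((p ^ N j / q ^ i j : ℕ) : ℤ) - d →
        ∑ j, (c j : ℚ) * ((p : ℚ) ^ N j / (q : ℚ) ^ i j) = 0 := by
  have hlp : 0 < Real.log p := Real.log_pos (by exact_mod_cast hp)
  have hlq : 0 < Real.log q := Real.log_pos (by exact_mod_cast hq)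
  have hl2 : 0 < Real.log 2 := Real.log_pos (by norm_num)
  have hl2q : Real.log 2 ≤ Real.log q := Real.log_le_log (by norm_num) (by exact_mod_cast hq)
  set B : ℝ := 1 + Real.log p / Real.log q with hB
  have hB1 : 1 ≤ B := by
    have : 0 < Real.log p / Real.log q := by positivity
    linarith
  set η : ℝ := ε * Real.log 2 / 4 with hη
  have hη0 : 0 < η := by positivity
  have hpq' : IsCoprime (q : ℤ) (p : ℤ) := Nat.isCoprime_iff_coprime.2 hpq.symm
  obtain ⟨δ, hδ, n1, hfin⟩ := Pool.Agent.TH932.S2.Pw.fin hp hq hpq' k (2 * B) η hη0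
  refine ⟨min δ η, lt_min hδ hη0, max (max n1 1) ⌈(Real.log ((k + 1) * q)) / η⌉₊, ?_⟩
  intro n l hn hl N i c d hN hd hdvd
  have hn1 : n1 ≤ n := (le_max_left _ _).trans ((le_max_left _ _).trans hn)
  have hn2 : 1 ≤ n := (le_max_right _ _).trans ((le_max_left _ _).trans hn)
  have hn3 : Real.log ((k + 1) * q) ≤ η * n := by
    have h1 : ⌈(Real.log ((k + 1) * q)) / η⌉₊ ≤ n := (le_max_right _ _).trans hn
    have h2 := (Nat.le_ceil ((Real.log ((k + 1) * q)) / η)).trans (Nat.cast_le.2 h1)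
    rw [div_le_iff₀ hη0] at h2
    linarith
  have hq0 : (0 : ℝ) < q := by positivity
  have hkq : ((k : ℝ) + 1) * q ≤ Real.exp (η * n) := by
    rw [← Real.log_le_iff_le_exp (by positivity)]
    exact hn3
  have hq1 : (1 : ℝ) ≤ q := by
    have : (2 : ℝ) ≤ q := by exact_mod_cast hq
    linarith
  have hk1 : ((k : ℝ) + 1) ≤ Real.exp (η * n) := by
    refine le_trans ?_ hkq
    have : (0 : ℝ) ≤ (k : ℝ) + 1 := by positivity
    nlinarith
  have hnr : (0 : ℝ) ≤ n := Nat.cast_nonneg n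
  have hql : Real.exp (4 * η * n) ≤ (q : ℝ) ^ l := by
    rw [Pool.Agent.TH932.S2.Pw.exp_pow hq]
    apply Real.exp_le_exp.2
    have e1 : 4 * η * n = (ε * n) * Real.log 2 := by rw [hη]; ring
    rw [e1]
    gcongr
  have hlηn : 4 * η * n ≤ l * Real.log q := by
    have e1 : 4 * η * n = (ε * n) * Real.log 2 := by rw [hη]; ring
    rw [e1]
    gcongr
  -- the common denominator
  set I : ℕ := univ.sup i with hI
  have hiI : ∀ j, i j ≤ I := fun j => Finset.le_sup (mem_univ j)
  have hqI : ∀ j, (q : ℤ) ^ (I - i j) * (q : ℤ) ^ (i j) = (q : ℤ) ^ I := by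
    intro j
    rw [← pow_add, Nat.sub_add_cancel (hiI j)]
  have hqIr : ∀ j, (q : ℝ) ^ (I - i j) * (q : ℝ) ^ (i j) = (q : ℝ) ^ I := by
    intro j
    rw [← pow_add, Nat.sub_add_cancel (hiI j)]
  rcases Nat.eq_zero_or_pos k with hk | hk
  · subst hk
    simp
  obtain ⟨j0⟩ : Nonempty (Fin k) := ⟨⟨0, hk⟩⟩
  have hIl : ((I + l : ℕ) : ℝ) ≤ 2 * B * n := by
    have h1 : ((I : ℕ) : ℝ) ≤ B * n := by
      obtain ⟨j, _, hj⟩ := Finset.exists_mem_eq_sup univ ⟨j0, mem_univ _⟩ i
      rw [hI, hj]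
      have h2 := len_bound hp hq (hN j).1 hn2
      have h3 : (i j : ℝ) ≤ len q (p ^ N j) := by
        have := (hN j).2.1
        exact_mod_cast (by omega : i j ≤ len q (p ^ N j))
      linarith
    have h2 : ((l : ℕ) : ℝ) ≤ B * n := by
      have h2 := len_bound hp hq (hN j0).1 hn2
      have h3 : (l : ℝ) ≤ len q (p ^ N j0) := by
        have := (hN j0).2.1
        exact_mod_cast (by omega : l ≤ len q (p ^ N j0))
      linarith
    push_cast
    linarith
  set x : ℤ := ∑ j, c j * ((q : ℤ) ^ (I - i j) * ((p ^ N j % q ^ i j : ℕ) : ℤ)) + (q : ℤ) ^ I * d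
    with hx
  have hsum : ∑ j, c j * ((p : ℤ) ^ (N j) * (q : ℤ) ^ (I - i j)) - x
      = (q : ℤ) ^ I * (∑ j, c j * ((p ^ N j / q ^ i j : ℕ) : ℤ) - d) := by
    rw [hx, mul_sub, Finset.mul_sum, ← sub_sub, ← Finset.sum_sub_distrib]
    congr 1
    refine Finset.sum_congr rfl fun j _ => ?_
    have h1 : ((p ^ N j % q ^ i j : ℕ) : ℤ) + ((q : ℤ) ^ (i j)) * ((p ^ N j / q ^ i j : ℕ) : ℤ)
        = (p : ℤ) ^ (N j) := by
      exact_mod_cast Nat.mod_add_div (p ^ N j) (q ^ i j)
    have h2 := hqI j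
    rw [← h1]
    linear_combination (c j * ((p ^ N j / q ^ i j : ℕ) : ℤ)) * h2
  have hxle : |(x : ℝ)| ≤ Real.exp (2 * η * n) * (q : ℝ) ^ I := by
    have hδη : Real.exp (min δ η * n) ≤ Real.exp (η * n) := by
      apply Real.exp_le_exp.2
      gcongr
      exact min_le_right _ _
    have h1 : |(x : ℝ)| ≤ ∑ _j : Fin k, Real.exp (η * n) * (q : ℝ) ^ I
        + Real.exp (η * n) * (q : ℝ) ^ I := by
      rw [hx]
      simp only [Int.cast_add, Int.cast_sum, Int.cast_mul, Int.cast_pow, Int.cast_natCast]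
      refine (abs_add_le _ _).trans (add_le_add ((Finset.abs_sum_le_sum_abs _ _).trans
        (Finset.sum_le_sum fun j _ => ?_)) ?_)
      · rw [abs_mul, abs_mul, abs_of_nonneg (by positivity : (0 : ℝ) ≤ (q : ℝ) ^ (I - i j)),
          abs_of_nonneg (Nat.cast_nonneg (p ^ N j % q ^ i j) :
            (0 : ℝ) ≤ ((p ^ N j % q ^ i j : ℕ) : ℝ)), ← hqIr j]
        have h2 : ((p ^ N j % q ^ i j : ℕ) : ℝ) ≤ (q : ℝ) ^ (i j) := by
          exact_mod_cast (Nat.mod_lt _ (pow_pos (by omega) _)).le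
        have h3 := (hN j).2.2.trans hδη
        gcongr
      · rw [abs_mul, abs_of_nonneg (by positivity : (0 : ℝ) ≤ (q : ℝ) ^ I), mul_comm]
        have := hd.trans hδη
        gcongr
    rw [Finset.sum_const, Finset.card_univ, Fintype.card_fin, nsmul_eq_mul] at h1
    refine h1.trans ?_
    have e1 : (k : ℝ) * (Real.exp (η * n) * (q : ℝ) ^ I) + Real.exp (η * n) * (q : ℝ) ^ I
        = ((k : ℝ) + 1) * (Real.exp (η * n) * (q : ℝ) ^ I) := by ring
    have e2 : Real.exp (2 * η * n) * (q : ℝ) ^ I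
        = Real.exp (η * n) * (Real.exp (η * n) * (q : ℝ) ^ I) := by
      rw [← mul_assoc, ← Real.exp_add]
      ring_nf
    rw [e1, e2]
    gcongr
  have hxle2 : |(x : ℝ)| * Real.exp (η * n) * q ≤ (q : ℝ) ^ (I + l) := by
    have hqe : (q : ℝ) ≤ Real.exp (η * n) := by
      refine le_trans ?_ hkq
      have : (0 : ℝ) ≤ (k : ℝ) := by positivity
      nlinarith
    calc |(x : ℝ)| * Real.exp (η * n) * q
        ≤ (Real.exp (2 * η * n) * (q : ℝ) ^ I) * Real.exp (η * n) * Real.exp (η * n) := by gcongr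
      _ = (q : ℝ) ^ I * Real.exp (4 * η * n) := by
          have : Real.exp (4 * η * n)
              = Real.exp (2 * η * n) * Real.exp (η * n) * Real.exp (η * n) := by
            rw [← Real.exp_add, ← Real.exp_add]; ring_nf
          rw [this]; ring
      _ ≤ (q : ℝ) ^ I * (q : ℝ) ^ l := by gcongr
      _ = _ := by rw [pow_add]
  have key := hfin n hn1 N (fun j => I - i j) c x 0 (I + l) ?_ (by simp; positivity) hIl ?_ ?_ ?_
  · -- the conclusion
    have h1 : ((∑ j, c j * ((p : ℤ) ^ (N j) * (q : ℤ) ^ (I - i j)) : ℤ) : ℚ) = 0 := by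
      exact_mod_cast key
    have hqQ : (q : ℚ) ≠ 0 := by
      have : q ≠ 0 := by omega
      exact_mod_cast this
    have h2 : (q : ℚ) ^ I * ∑ j, (c j : ℚ) * ((p : ℚ) ^ N j / (q : ℚ) ^ i j) = 0 := by
      rw [← h1]
      push_cast
      rw [Finset.mul_sum]
      refine Finset.sum_congr rfl fun j _ => ?_
      have h3 : (q : ℚ) ^ I = (q : ℚ) ^ (I - i j) * (q : ℚ) ^ (i j) := by
        rw [← pow_add, Nat.sub_add_cancel (hiI j)]
      rw [h3]
      field_simp
    exact (mul_eq_zero.1 h2).resolve_left (pow_ne_zero _ hqQ)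
  · intro j
    refine ⟨?_, ?_, (hN j).2.2.trans (Real.exp_le_exp.2 ?_)⟩
    · have h1 : (N j : ℝ) ≤ n := by exact_mod_cast (hN j).1
      nlinarith
    · have h1 : ((I - i j : ℕ) : ℝ) ≤ ((I + l : ℕ) : ℝ) := by
        exact_mod_cast (by omega : I - i j ≤ I + l)
      exact h1.trans hIl
    · gcongr
      exact min_le_left _ _
  · rw [hsum, pow_zero, one_mul, pow_add]
    exact mul_dvd_mul_left _ hdvd
  · rw [pow_zero, one_mul]
    refine le_trans ?_ hxle2
    have : 0 ≤ |(x : ℝ)| * Real.exp (η * n) := by positivity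
    nlinarith
  · intro j _
    constructor
    · have h1 : q ^ (i j + l) ≤ q * p ^ N j := by
        have h2 : q ^ len q (p ^ N j) ≤ q * p ^ N j :=
          Nat.base_pow_length_digits_le q (p ^ N j) (by omega) (pow_ne_zero _ (by omega))
        exact (Nat.pow_le_pow_right (by omega) (hN j).2.1).trans h2
      have h2 : (q : ℝ) ^ (i j + l) ≤ q * (p : ℝ) ^ N j := by exact_mod_cast h1
      have h3 : (q : ℝ) ^ (I + l) ≤ ((p : ℝ) ^ N j * (q : ℝ) ^ (I - i j)) * q := by
        calc (q : ℝ) ^ (I + l) = (q : ℝ) ^ (I - i j) * (q : ℝ) ^ (i j + l) := by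
              rw [← pow_add]; congr 1; have := hiI j; omega
          _ ≤ (q : ℝ) ^ (I - i j) * (q * (p : ℝ) ^ N j) := by gcongr
          _ = _ := by ring
      exact le_of_mul_le_mul_right (hxle2.trans h3) hq0
    · have h1 : ((I - i j : ℕ) : ℝ) ≤ I := by exact_mod_cast Nat.sub_le _ _
      push_cast
      have h2 : η * n ≤ l * Real.log q := by
        have : 0 ≤ η * n := by positivity
        linarith
      have h3 := mul_le_mul_of_nonneg_right h1 hlq.le
      linarith

/-- words of length at least `ε n` in the expansions of `p ^ 0, …, p ^ n` are different -/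
theorem different (p q : ℕ) (hp : 2 ≤ p) (hq : 2 ≤ q) (hpq : p.Coprime q) (ε : ℝ) (hε : 0 < ε) :
    ∃ n₀ : ℕ, ∀ n l : ℕ, n₀ ≤ n → ε * n ≤ l → ∀ N N' i i' : ℕ, N ≤ n → N' ≤ n →
      i + l ≤ len q (p ^ N) → i' + l ≤ len q (p ^ N') →
      word q (p ^ N) i l = word q (p ^ N') i' l → N = N' ∧ i = i' := by
  obtain ⟨δ, hδ, n0, h⟩ := relations p q hp hq hpq ε hε 2
  refine ⟨n0, fun n l hn hl N N' i i' hN hN' hi hi' hw => ?_⟩
  have h1 : (1 : ℝ) ≤ Real.exp (δ * n) := Real.one_le_exp (by positivity)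
  have key := h n l hn hl ![N, N'] ![i, i'] ![1, -1] 0 ?_ (by simpa using (Real.exp_pos _).le) ?_
  · simp only [Fin.sum_univ_two, Matrix.cons_val_zero, Matrix.cons_val_one] at key
    have hqQ : (q : ℚ) ≠ 0 := by
      have : q ≠ 0 := by omega
      exact_mod_cast this
    have h2 : (p : ℚ) ^ N * (q : ℚ) ^ i' = (p : ℚ) ^ N' * (q : ℚ) ^ i := by
      have h3 : (p : ℚ) ^ N / (q : ℚ) ^ i = (p : ℚ) ^ N' / (q : ℚ) ^ i' := by
        push_cast at key
        linarith
      rwa [div_eq_div_iff (pow_ne_zero _ hqQ) (pow_ne_zero _ hqQ)] at h3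
    have h3 : p ^ N * q ^ i' = p ^ N' * q ^ i := by exact_mod_cast h2
    have h4 : ∀ {a b s t : ℕ}, p ^ a * q ^ s = p ^ b * q ^ t → a ≤ b := by
      intro a b s t hab
      have h5 : p ^ a ∣ p ^ b * q ^ t := hab ▸ Dvd.intro _ rfl
      have h6 : p ^ a ∣ p ^ b := (Nat.Coprime.pow a t hpq).dvd_of_dvd_mul_right h5
      exact (Nat.pow_dvd_pow_iff_le_right (by omega)).1 h6
    have h5 : N = N' := le_antisymm (h4 h3) (h4 h3.symm)
    subst h5
    have h6 : q ^ i' = q ^ i := Nat.eq_of_mul_eq_mul_left (pow_pos (by omega) _) h3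
    exact ⟨rfl, (Nat.pow_right_injective hq h6).symm⟩
  · intro j
    fin_cases j
    · exact ⟨hN, hi, by simpa using h1⟩
    · exact ⟨hN', hi', by simpa using h1⟩
  · simp only [Fin.sum_univ_two, Matrix.cons_val_zero, Matrix.cons_val_one]
    have h2 : (p ^ N / q ^ i) % q ^ l = (p ^ N' / q ^ i') % q ^ l := by
      apply mod_eq
      intro t ht
      have h3 := congrFun hw ⟨t, ht⟩
      simp only [word] at h3
      rw [Nat.div_div_eq_div_mul, Nat.div_div_eq_div_mul, ← pow_add, ← pow_add]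
      exact h3
    have h3 : (p ^ N' / q ^ i') ≡ (p ^ N / q ^ i) [MOD q ^ l] := h2.symm
    have h4 := (Nat.modEq_iff_dvd.1 h3)
    push_cast at h4 ⊢
    convert h4 using 1
    ring

/-- **Long words in the digits of `p ^ n`.** Let `p, q ≥ 2` be coprime and `ε > 0`.

(1) For large `n` the words of length `l ≥ ε n` in the base `q` expansions of `p ^ 0, …, p ^ n` are
pairwise different (words of the same length `l` at different places or in different powers).

(2) For large `n` and all `l ≥ ε n` the number of different words of length `l` in the expansion of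
`p ^ n` is the number of places where such a word can begin.

(3) For every `k` there is `δ > 0` such that for large `n`, `l ≥ ε n` and integers `|c j|, |d| ≤ e^(δ n)`:
if `∑ c j W j ≡ d` modulo `q ^ l`, where `W j = ⌊p ^ N j / q ^ i j⌋` is the number whose last `l` digits
form the word of length `l` at the place `i j` in `p ^ N j`, `N j ≤ n`, then
`∑ c j p ^ N j / q ^ i j = 0`. -/
theorem result (p q : ℕ) (hp : 2 ≤ p) (hq : 2 ≤ q) (hpq : p.Coprime q) (ε : ℝ) (hε : 0 < ε) :
    (∃ n₀ : ℕ, ∀ n l : ℕ, n₀ ≤ n → ε * n ≤ l → ∀ N N' i i' : ℕ, N ≤ n → N' ≤ n →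
      i + l ≤ len q (p ^ N) → i' + l ≤ len q (p ^ N') →
      word q (p ^ N) i l = word q (p ^ N') i' l → N = N' ∧ i = i') ∧
    (∃ n₀ : ℕ, ∀ n l : ℕ, n₀ ≤ n → ε * n ≤ l →
      {w | ∃ i : ℕ, i + l ≤ len q (p ^ n) ∧ w = word q (p ^ n) i l}.ncard
        = len q (p ^ n) + 1 - l) ∧
    ∀ k : ℕ, ∃ δ : ℝ, 0 < δ ∧ ∃ n₀ : ℕ, ∀ n l : ℕ, n₀ ≤ n → ε * n ≤ l →
      ∀ (N i : Fin k → ℕ) (c : Fin k → ℤ) (d : ℤ),
        (∀ j, N j ≤ n ∧ i j + l ≤ len q (p ^ N j) ∧ |(c j : ℝ)| ≤ Real.exp (δ * n)) →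
        |(d : ℝ)| ≤ Real.exp (δ * n) →
        (q : ℤ) ^ l ∣ ∑ j, c j * ((p ^ N j / q ^ i j : ℕ) : ℤ) - d →
        ∑ j, (c j : ℚ) * ((p : ℚ) ^ N j / (q : ℚ) ^ i j) = 0 := by
  refine ⟨different p q hp hq hpq ε hε, ?_, relations p q hp hq hpq ε hε⟩
  obtain ⟨n0, h⟩ := different p q hp hq hpq ε hε
  refine ⟨n0, fun n l hn hl => ?_⟩
  have h1 : {w | ∃ i : ℕ, i + l ≤ len q (p ^ n) ∧ w = word q (p ^ n) i l}
      = (fun i => word q (p ^ n) i l) '' (Finset.range (len q (p ^ n) + 1 - l) : Set ℕ) := by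
    ext w
    constructor
    · rintro ⟨i, hi, rfl⟩
      refine ⟨i, ?_, rfl⟩
      rw [Finset.coe_range, Set.mem_Iio]
      omega
    · rintro ⟨i, hi, rfl⟩
      rw [Finset.coe_range, Set.mem_Iio] at hi
      exact ⟨i, by omega, rfl⟩
  rw [h1, Set.InjOn.ncard_image]
  · rw [Set.ncard_coe_finset, Finset.card_range]
  · intro i hi i' hi' hii
    simp only [Finset.coe_range, Set.mem_Iio] at hi hi'
    exact (h n l hn hl n n i i' le_rfl le_rfl (by omega) (by omega) hii).2

end Pool.Agent.Results.MP_b08cb4_nt.LongWindows
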