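import Mathlib
import Pool.Agent.TH419.WI.PowersW

set_option autoImplicit false

open Finset

namespace Pool.Agent.Results.MP_b08cb4_nt.WindowIndependence

/-- the digit of `n` in base `q` at the place `i` (the last digit has the place `0`) -/
def digit (q n i : ℕ) : ℕ := n / q ^ i % q

/-- Let `p, q ≥ 2` be coprime (for example different primes).  Fix `D, E, K, C` and `ε > 0`.  There
is `M` such that the following holds for every `m ≥ M`.  Take `D` different pairs `(N_j, t_j)`, where
the exponents `N_j ≤ C m` are pairwise equal or at least `M` apart and `p ^ N_j` has more than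
`t_j + m` digits in base `q`, and let `w_j` be the word of the `m` digits of `p ^ N_j` in base `q` at
the places `t_j, …, t_j + m - 1`.  No nontrivial real linear combination of `w_1, …, w_D` agrees
outside `K` places with a sum of `E` periodic sequences whose periods add up to at most
`(1 - ε) m / (K + 1)`. -/
theorem result (p q : ℕ) (hp : 2 ≤ p) (hq : 2 ≤ q) (hpq : p.Coprime q)
    (D E K C : ℕ) (ε : ℝ) (hε : 0 < ε) :
    ∃ M : ℕ, ∀ m : ℕ, M ≤ m → ∀ N t : Fin D → ℕ, Function.Injective (fun j => (N j, t j)) →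
      (∀ j, N j ≤ C * m) → (∀ j, q ^ (t j + m) ≤ p ^ (N j)) →
      (∀ i j, N i ≠ N j → N i + M ≤ N j ∨ N j + M ≤ N i) →
      ∀ lam : Fin D → ℝ, lam ≠ 0 → ∀ per : Fin E → ℕ, (∀ l, 0 < per l) →
      ((∑ l, per l : ℕ) : ℝ) ≤ (1 - ε) * m / (K + 1) →
      ∀ f : Fin E → ℕ → ℝ, (∀ l i, f l (i + per l) = f l i) →
      K < ((Finset.range m).filter (fun i =>
        ∑ j, lam j * (digit q (p ^ N j) (t j + i) : ℝ) ≠ ∑ l, f l i)).card :=
  Pool.Agent.TH419.WI.windowsP p q hp hq hpq D E K C ε hε

end Pool.Agent.Results.MP_b08cb4_nt.WindowIndependence
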