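import Mathlib
import Pool.Agent.TH461.AL.Fin

/-!
# Words in all long windows of almost all powers

For `b, q ≥ 2` coprime and `a ≥ 1`: for all but `δ M` of any `M` consecutive exponents `n`, every
word of `k` digits occurs at least `M ^ (1 - ε)` times in every long window of the base `b` digits of
`a q ^ n`.
-/

set_option autoImplicit false

open Filter Topology

namespace Pool.Agent.Results.MP_b08cb4_nt.WordsInAllWindows

open Classical in
/-- Let `b, q ≥ 2` be coprime, `a ≥ 1`, and `k`, `ε, δ, η > 0`.  There is `M0` such that for all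
`M ≥ M0` and all `J`, for all but at most `δ M` of the exponents `n = J + t`, `t < M`: for every
window `u, …, u + l - 1` of places of the base `b` expansion of `a q ^ n` (counted from the right,
`u + l` at most the number of digits) of length `l ≥ η (J + M)` and for every word of `k` digits (the
word with value `W < b ^ k`, with leading zeros), this word occurs in the window at least
`M ^ (1 - ε)` times: its last digit is at place `i`, its first digit at place `i + k - 1`. -/
theorem result (b q : ℕ) (hb : 2 ≤ b) (hq : 2 ≤ q) (hco : Nat.Coprime b q) (a : ℕ) (ha : 1 ≤ a)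
    (k : ℕ) (ε δ η : ℝ) (hε : 0 < ε) (hδ : 0 < δ) (hη : 0 < η) :
    ∃ M0 : ℕ, ∀ M : ℕ, M0 ≤ M → ∀ J : ℕ,
      (((Finset.range M).filter (fun t : ℕ => ¬ ∀ u l : ℕ,
        u + l ≤ (Nat.digits b (a * q ^ (J + t))).length → η * ((J : ℝ) + M) ≤ l → ∀ W < b ^ k,
          (M : ℝ) ^ (1 - ε) ≤ (((Finset.range (u + l)).filter (fun i : ℕ =>
            u ≤ i ∧ i + k ≤ u + l ∧ a * q ^ (J + t) / b ^ i % b ^ k = W)).card : ℝ))).card : ℝ)
        ≤ δ * M :=
  Pool.Agent.TH461.AL.Fin.pow_windows hb hq hco ha k hε hδ hη

end Pool.Agent.Results.MP_b08cb4_nt.WordsInAllWindows
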